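import Pool.Agent.N949.CM.StmM

/-!
# Project CM (helper949), task MIXB: subsets by types (helper402)
-/

set_option autoImplicit false

namespace Pool.Agent.N402.CM

open Finset
open scoped Classical

theorem mem_type {κ ι : Type} (τ : κ → ι) (T : Finset κ) (t : ι) (q : κ) :
    q ∈ T.filter (fun q => τ q = t) ↔ q ∈ T ∧ τ q = t := by
  simp

theorem card_fibre {κ ι : Type} [Fintype ι] (E : Finset κ) (τ : κ → ι) (j : ι → ℕ) :
    (E.powerset.filter (fun T => (fun t => (T.filter (fun q => τ q = t)).card) = j)).card =
      ∏ t, (E.filter (fun q => τ q = t)).card.choose (j t) := by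
  have h1 : (E.powerset.filter (fun T => (fun t => (T.filter (fun q => τ q = t)).card) = j)).card =
      (Fintype.piFinset (fun t => (E.filter (fun q => τ q = t)).powersetCard (j t))).card := by
    refine Finset.card_bij' (fun T _ t => T.filter (fun q => τ q = t))
      (fun F _ => E.filter (fun q => q ∈ F (τ q))) ?_ ?_ ?_ ?_
    · intro T hT
      rw [mem_filter, mem_powerset] at hT
      rw [Fintype.mem_piFinset]
      intro t
      rw [mem_powersetCard]
      exact ⟨filter_subset_filter _ hT.1, congrFun hT.2 t⟩
    · intro F hF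
      rw [Fintype.mem_piFinset] at hF
      rw [mem_filter, mem_powerset]
      refine ⟨filter_subset _ _, ?_⟩
      funext t
      have h2 := mem_powersetCard.1 (hF t)
      rw [← h2.2]
      congr 1
      ext q
      simp only [mem_filter]
      constructor
      · rintro ⟨⟨_, h3⟩, rfl⟩
        exact h3
      · intro h3
        have h4 := h2.1 h3
        rw [mem_filter] at h4
        obtain ⟨h5, rfl⟩ := h4
        exact ⟨⟨h5, h3⟩, rfl⟩
    · intro T hT
      rw [mem_filter, mem_powerset] at hT
      ext q
      simp only [mem_filter]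
      constructor
      · rintro ⟨_, h3, _⟩
        exact h3
      · intro h3
        exact ⟨hT.1 h3, h3, trivial⟩
    · intro F hF
      rw [Fintype.mem_piFinset] at hF
      funext t
      have h2 := mem_powersetCard.1 (hF t)
      ext q
      simp only [mem_filter]
      constructor
      · rintro ⟨⟨_, h3⟩, rfl⟩
        exact h3
      · intro h3
        have h4 := h2.1 h3
        rw [mem_filter] at h4
        obtain ⟨h5, rfl⟩ := h4
        exact ⟨⟨h5, h3⟩, rfl⟩
  rw [h1, Fintype.card_piFinset]
  exact prod_congr rfl fun t _ => card_powersetCard _ _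

theorem sum_types {κ ι M : Type} [Fintype ι] [AddCommGroup M] (T : Finset κ) (τ : κ → ι) (v : ι → M) :
    ∑ q ∈ T, v (τ q) = ∑ t, (T.filter (fun q => τ q = t)).card • v t := by
  rw [← Finset.sum_fiberwise_of_maps_to (s := T) (t := univ) (g := τ) (fun _ _ => mem_univ _)]
  refine sum_congr rfl fun t _ => ?_
  rw [sum_congr rfl (g := fun _ => v t), sum_const]
  intro q hq
  rw [(mem_filter.1 hq).2]

/-- MIXB -/
theorem mixb : Pool.Agent.N949.CM.S_MIXB := by
  intro κ ι M _ _ E τ v g u
  have key : ∀ T ∈ E.powerset, (fun t => (T.filter (fun q => τ q = t)).card) ∈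
      Fintype.piFinset (fun t => range ((E.filter (fun q => τ q = t)).card + 1)) := by
    intro T hT
    rw [Fintype.mem_piFinset]
    intro t
    rw [mem_range, Nat.lt_succ_iff]
    exact card_le_card (filter_subset_filter _ (mem_powerset.1 hT))
  rw [← Finset.sum_fiberwise_of_maps_to key]
  refine sum_congr rfl fun j _ => ?_
  rw [sum_congr rfl (g := fun _ => g (u + ∑ t, j t • v t)), sum_const, nsmul_eq_mul]
  · congr 1
    rw [← Nat.cast_prod, ← card_fibre]
  · intro T hT
    have h1 := (mem_filter.1 hT).2
    rw [sum_types T τ v]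
    congr 2
    refine sum_congr rfl fun t _ => ?_
    rw [← h1]

end Pool.Agent.N402.CM
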